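import Mathlib
import Pool.Agent.TH616.MDefs
import Pool.Agent.TH616.MEx4

/-! Disproof of MP_4ac55f_gt Q1: an immersed three-sphere in the unit six-sphere `S⁶ ⊂ ℝ⁷`
(`n = q = 3`, `c = 1`) with `Ric > 1 + |H|²/9` whose mean curvature flow converges neither to a
round point nor to a totally geodesic sphere. -/

open Set Metric Pool.Agent.TH616.MCF

namespace Pool.Agent.Results.MP_4ac55f_gt.WhitneyRicci

theorem result : ∃ F₀ : S 3 → EuclideanSpace ℝ (Fin 7),
    -- `F₀` is a smooth immersion of the three-sphere into the unit six-sphere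
    IsSmooth F₀ ∧ (∀ x, ‖F₀ x‖ = 1) ∧ IsImmersion F₀ ∧ (∀ x, ∃ e, IsFrame F₀ x e) ∧
    -- `n² c + |H|² > 0` and `Ric(u, u) > (n - 2) (c + |H|² / n²)` for all unit tangent vectors
    (∀ x e, IsFrame F₀ x e → 0 < (3 : ℝ) ^ 2 * 1 + ‖meanCurv F₀ x e‖ ^ 2 ∧
      ∀ u : E 3, inner ℝ (x : E 3) u = 0 → ‖D F₀ x u‖ = 1 →
        ((3 : ℝ) - 2) * (1 + 1 / (3 : ℝ) ^ 2 * ‖meanCurv F₀ x e‖ ^ 2) < ricci F₀ x e u) ∧
    -- no mean curvature flow starting at `F₀` satisfies one of the two alternatives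
    ∀ (T : EReal) (F : ℝ → S 3 → EuclideanSpace ℝ (Fin 7)), IsMCF F₀ T F →
      ¬ToRoundPoint T F ∧ ¬ToGreatSphere T F := by
  refine ⟨W0, W0_smooth, W0_norm, W0_imm, fun x => exists_frame W0_imm x, ?_,
    fun T F h => ⟨not_toRoundPoint h, not_toGreatSphere h⟩⟩
  intro x e he
  refine ⟨by positivity, fun u hu h1 => ?_⟩
  have := pinching_W0 he hu h1
  norm_num at this ⊢
  exact this

end Pool.Agent.Results.MP_4ac55f_gt.WhitneyRicci
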